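import Pool.Agent.H70.KK.Rank
import Pool.Agent.H70.KK.CORE
import Pool.Agent.H70.KK.AVG

/-!
# Kalai's rank conjecture up to a constant factor in the defect, for all 3-graphs and all `s`; the case `s = 1`

Let `G` be a 3-graph on `n` vertices in which every 4-set of vertices contains an edge, and `r_s(G)` the rank of Kalai's
matrix `M_s(G)`, which has `s` blocks of `n.choose 2` columns. Kalai conjectured `r_s(G) ≥ B_s(n)`, that is, the defect
`s * n.choose 2 - r_s(G)` is at most `s * n.choose 2 - B_s(n)` (`= s (s + 1) n - s (s + 1) (s + 2) / 2`). We prove: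

1. the conjecture for `s = 1`: `r_1(G) ≥ B_1(n) = (n - 2).choose 2`;
2. `s * n.choose 2 - r_s(G) ≤ 304 s² n` for all `n`, `s` and all `G`;
3. the defect is at most `608` times the conjectured one, for all `s ≤ n / 3`;
4. `r_s(G) ≥ (1 - ε) B_s(n)` whenever `608 s ≤ ε (n - 1)`.

The proof is combinatorial. By an inequality of an earlier library result it is enough to find few pairs of vertices
(`304 s n` of them) such that all pairs are obtained from them by the rule: add `x y` if there are `s` vertices `w` such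
that `x y w` is an edge and `x w`, `y w` are already there. By induction on `n` this follows if some vertex `z` is easy:
`s`-neighbour bootstrap percolation in the link graph of `z` fills all vertices from at most `304 s` of them. If a vertex
`v` is not easy then its link graph has three sets of `6 s` vertices such that any two vertices which are not adjacent in
the link (with few exceptions) form edges with most vertices of one of these sets. If there are `22 s` such vertices `v`
then an averaging argument shows that the three sets of one of them, the vertices `v` and `264 s` exceptional vertices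
percolate in the link of a further vertex `z`.
-/

set_option autoImplicit false
open Finset

namespace Pool.Agent.Results.MP_8317a8_co.DefectBound

/-- Kalai's matrix `M_s(G)`. -/
noncomputable def kalaiMatrix (n s : ℕ) (G : Finset (Finset (Fin n))) :
    Matrix {e : Finset (Fin n) // e ∈ G} (Fin s × {p : Fin n × Fin n // p.1 < p.2})
      (FractionRing (MvPolynomial (Fin s × Fin n) ℚ)) :=
  Matrix.of (fun (e : {e : Finset (Fin n) // e ∈ G})
      (c : Fin s × {p : Fin n × Fin n // p.1 < p.2}) =>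
    if c.2.1.1 ∈ e.1 ∧ c.2.1.2 ∈ e.1 then
      ∑ w ∈ e.1 \ {c.2.1.1, c.2.1.2},
        (if c.2.1.1 < w ∧ w < c.2.1.2 then
          algebraMap (MvPolynomial (Fin s × Fin n) ℚ)
            (FractionRing (MvPolynomial (Fin s × Fin n) ℚ))
            (MvPolynomial.X (c.1, w))
        else
          -algebraMap (MvPolynomial (Fin s × Fin n) ℚ)
            (FractionRing (MvPolynomial (Fin s × Fin n) ℚ))
            (MvPolynomial.X (c.1, w)))
    else (0 : FractionRing (MvPolynomial (Fin s × Fin n) ℚ)))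

/-- The rank `r_s(G)` of Kalai's matrix. -/
noncomputable def kalaiRank (n s : ℕ) (G : Finset (Finset (Fin n))) : ℕ := (kalaiMatrix n s G).rank

/-- Kalai's number `B_s(n)` (for `s ≤ n / 3`). -/
def kalaiNumber (n s : ℕ) : ℤ :=
  ∑ i ∈ Icc 1 s, (((n - 2 * i).choose 2 : ℤ) - (i.choose 2 : ℤ))

/-- `G` is a 3-graph, and every 4-set of vertices contains an edge of `G`. -/
def Covering {n : ℕ} (G : Finset (Finset (Fin n))) : Prop :=
  (∀ e ∈ G, e.card = 3) ∧ ∀ S : Finset (Fin n), S.card = 4 → ∃ e ∈ G, e ⊆ S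

theorem one {n : ℕ} (hn : 3 ≤ n) {G : Finset (Finset (Fin n))} (hG : Covering G) :
    kalaiNumber n 1 ≤ (kalaiRank n 1 G : ℤ) := by
  have h := Pool.Agent.H70.KK.Rank.one_ge (by omega : 2 ≤ n) hG.1 hG.2
  have h' : n.choose 2 ≤ kalaiRank n 1 G + (2 * n - 3) := h
  have h2 : (n - 2).choose 2 + (2 * n - 3) = n.choose 2 := by
    obtain ⟨m, rfl⟩ : ∃ m, n = m + 3 := ⟨n - 3, by omega⟩
    have e1 : (m + 3).choose 2 = (m + 1).choose 2 + (2 * m + 3) := by
      rw [Nat.choose_succ_succ' (m + 2) 1, Nat.choose_succ_succ' (m + 1) 1, Nat.choose_one_right,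
        Nat.choose_one_right]
      ring
    have e2 : m + 3 - 2 = m + 1 := by omega
    rw [e1, e2]
    omega
  have h3 : (n - 2).choose 2 ≤ kalaiRank n 1 G := by omega
  unfold kalaiNumber
  simp only [Icc_self, sum_singleton, mul_one]
  have h4 : ((Nat.choose 1 2 : ℕ) : ℤ) = 0 := by decide
  rw [h4, sub_zero]
  exact_mod_cast h3

theorem all {n s : ℕ} (hs : 1 ≤ s) {G : Finset (Finset (Fin n))} (hG : Covering G) :
    s * n.choose 2 ≤ kalaiRank n s G + 304 * s ^ 2 * n := by
  obtain ⟨I, hI, hp⟩ := Pool.Agent.H70.KK.MAIN2.main2 Pool.Agent.H70.KK.CORE.core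
    Pool.Agent.H70.KK.AVG.avg (Fin n) inferInstance (Pool.Agent.H70.KK.EE G) univ s
    (Pool.Agent.H70.KK.Rank.sym3 G) (Pool.Agent.H70.KK.Rank.cov hG.1 hG.2) hs
  have h : s * n.choose 2 ≤ kalaiRank n s G + s * I.card := Pool.Agent.H70.KK.Rank.rank_ge n s G I hp
  rw [card_univ, Fintype.card_fin] at hI
  have h2 : s * I.card ≤ s * (304 * s * n) := Nat.mul_le_mul_left _ hI
  calc s * n.choose 2 ≤ kalaiRank n s G + s * I.card := h
    _ ≤ kalaiRank n s G + s * (304 * s * n) := by omega
    _ = kalaiRank n s G + 304 * s ^ 2 * n := by ring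

theorem choose_two (k : ℕ) : 2 * (k.choose 2 : ℤ) = k * (k - 1) := by
  have h := Nat.cast_choose_two ℚ k
  have h2 : (2 : ℚ) * (k.choose 2 : ℚ) = k * (k - 1) := by rw [h]; ring
  exact_mod_cast h2

/-- the value of Kalai's number -/
theorem number {n : ℕ} : ∀ s : ℕ, 2 * s ≤ n →
    2 * kalaiNumber n s = s * (n * (n - 1)) - 2 * s * (s + 1) * n + s * (s + 1) * (s + 2)
  | 0, _ => by simp [kalaiNumber]
  | s + 1, h => by
    have ih := number (n := n) s (by omega)
    have h1 : kalaiNumber n (s + 1) = kalaiNumber n s +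
        (((n - 2 * (s + 1)).choose 2 : ℤ) - ((s + 1).choose 2 : ℤ)) := by
      unfold kalaiNumber
      rw [sum_Icc_succ_top (a := 1) (b := s) (by omega)]
    obtain ⟨m, rfl⟩ : ∃ m, n = m + 2 * (s + 1) := ⟨n - 2 * (s + 1), by omega⟩
    have h2 : m + 2 * (s + 1) - 2 * (s + 1) = m := by omega
    rw [h1, h2, mul_add, ih]
    have d1 := choose_two m
    have d2 := choose_two (s + 1)
    push_cast at d1 d2 ⊢
    linarith

/-- the conjectured defect -/
theorem defect {n s : ℕ} (hs : 1 ≤ s) (hsn : s ≤ n / 3) :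
    2 * ((s * n.choose 2 : ℤ) - kalaiNumber n s) = s * (s + 1) * (2 * n - s - 2) ∧
      (s : ℤ) ^ 2 * n ≤ 2 * ((s * n.choose 2 : ℤ) - kalaiNumber n s) := by
  have h1 := number (n := n) s (by omega)
  have h2 := choose_two n
  have h3 : (s : ℤ) + 2 ≤ n := by
    have : s + 2 ≤ n := by omega
    exact_mod_cast this
  have hs' : (1 : ℤ) ≤ s := by exact_mod_cast hs
  have h4 : 2 * ((s * n.choose 2 : ℤ) - kalaiNumber n s) = s * (s + 1) * (2 * n - s - 2) := by
    have : (s : ℤ) * (2 * (n.choose 2 : ℤ)) = s * (n * (n - 1)) := by rw [h2]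
    linarith
  refine ⟨h4, ?_⟩
  rw [h4]
  have h5 : (0 : ℤ) ≤ s * (s * (n - s - 2) + (2 * n - s - 2)) := by
    apply mul_nonneg (by linarith)
    have : (0 : ℤ) ≤ s * (n - s - 2) := mul_nonneg (by linarith) (by linarith)
    linarith
  nlinarith

/-- **Main result.** Let `G` be a 3-graph on `n` vertices in which every 4-set of vertices contains an edge. (1) Kalai's
inequality for `s = 1`: `B_1(n) ≤ r_1(G)`. (2) For all `s ≥ 1`, `s * n.choose 2 ≤ r_s(G) + 304 s² n`. (3) For
`1 ≤ s ≤ n / 3` the defect `s * n.choose 2 - r_s(G)` is at most `608` times `s * n.choose 2 - B_s(n)` (Kalai's conjecture: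
at most `1` times). (4) For `0 < ε ≤ 1` and `608 s ≤ ε (n - 1)`: `(1 - ε) B_s(n) ≤ r_s(G)`. -/
theorem result :
    (∀ (n : ℕ) (G : Finset (Finset (Fin n))), 3 ≤ n → Covering G → kalaiNumber n 1 ≤ (kalaiRank n 1 G : ℤ)) ∧
    (∀ (n s : ℕ) (G : Finset (Finset (Fin n))), 1 ≤ s → Covering G →
      s * n.choose 2 ≤ kalaiRank n s G + 304 * s ^ 2 * n) ∧
    (∀ (n s : ℕ) (G : Finset (Finset (Fin n))), 1 ≤ s → s ≤ n / 3 → Covering G →
      (s * n.choose 2 : ℤ) - kalaiRank n s G ≤ 608 * ((s * n.choose 2 : ℤ) - kalaiNumber n s)) ∧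
    (∀ (n s : ℕ) (G : Finset (Finset (Fin n))) (ε : ℝ), 1 ≤ s → 0 < ε → ε ≤ 1 →
      608 * (s : ℝ) ≤ ε * ((n : ℝ) - 1) → Covering G →
      (1 - ε) * (kalaiNumber n s : ℝ) ≤ kalaiRank n s G) := by
  refine ⟨fun n G hn hG => one hn hG, fun n s G hs hG => all hs hG, ?_, ?_⟩
  · intro n s G hs hsn hG
    have h1 : ((s * n.choose 2 : ℕ) : ℤ) ≤ ((kalaiRank n s G + 304 * s ^ 2 * n : ℕ) : ℤ) := by
      exact_mod_cast all hs hG
    have h2 := (defect hs hsn).2
    push_cast at h1
    linarith
  · intro n s G ε hs h0 h1 hε hG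
    have hsn : s ≤ n / 3 := by
      have a1 : (1 : ℝ) ≤ s := by exact_mod_cast hs
      have a2 : (0 : ℝ) < (n : ℝ) - 1 := by
        by_contra hc
        have : ε * ((n : ℝ) - 1) ≤ 0 := mul_nonpos_of_nonneg_of_nonpos h0.le (not_lt.1 hc)
        linarith
      have a3 : ε * ((n : ℝ) - 1) ≤ 1 * ((n : ℝ) - 1) := mul_le_mul_of_nonneg_right h1 a2.le
      have a4 : (608 : ℝ) * s ≤ n := by linarith
      have a5 : 608 * s ≤ n := by exact_mod_cast a4
      omega
    have h2 : ((s * n.choose 2 : ℕ) : ℝ) ≤ ((kalaiRank n s G + 304 * s ^ 2 * n : ℕ) : ℝ) := by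
      exact_mod_cast all hs hG
    have h3 : (0 : ℤ) ≤ 2 * ((s * n.choose 2 : ℤ) - kalaiNumber n s) :=
      le_trans (by positivity) (defect hs hsn).2
    have h4 : kalaiNumber n s ≤ (s * n.choose 2 : ℤ) := by linarith
    have h5 : (kalaiNumber n s : ℝ) ≤ (s : ℝ) * (n.choose 2 : ℝ) := by exact_mod_cast h4
    have h6 : 2 * (n.choose 2 : ℝ) = n * (n - 1) := by exact_mod_cast choose_two n
    push_cast at h2
    have h7 : (304 : ℝ) * s ^ 2 * n ≤ ε * (s * n.choose 2) := by
      have h8 : (s : ℝ) * n * (608 * s) ≤ s * n * (ε * (n - 1)) :=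
        mul_le_mul_of_nonneg_left hε (by positivity)
      have h9 : ε * s * (2 * (n.choose 2 : ℝ)) = ε * s * (n * (n - 1)) := by rw [h6]
      nlinarith
    have h10 : (1 - ε) * (kalaiNumber n s : ℝ) ≤ (1 - ε) * (s * n.choose 2) :=
      mul_le_mul_of_nonneg_left h5 (by linarith)
    linarith

end Pool.Agent.Results.MP_8317a8_co.DefectBound
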